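import Mathlib

/-!
# Multiple zeta values and the algebra `ℚ[π²] ⊗ (shuffle algebra)`

The definitions of the frozen statements of MP_f3dc73_nt, with names.
-/

set_option autoImplicit false

open Finset

namespace Pool.Agent.K4H54.MZ

/-- `(i, [a_1, …, a_r])` stands for the basis element `(π²) ^ i ⊗ f_{2 a_1 + 3} ⋯ f_{2 a_r + 3}` -/
abbrev Bas : Type := ℕ × List ℕ

/-- the degree of a basis element -/
def wt (p : Bas) : ℕ := 2 * p.1 + (p.2.map fun a => 2 * a + 3).sum

/-- the multiple zeta value `ζ(n_1, …, n_m)` -/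
noncomputable def mzv (m : ℕ) (n : Fin m → ℕ) : ℝ :=
  ∑' k : {k : Fin m → ℕ // StrictMono k ∧ ∀ i, 0 < k i}, ∏ i, (((k.1 i : ℕ) : ℝ) ^ n i)⁻¹

/-- the `ℚ`-linear span of the multiple zeta values of weight `w` -/
noncomputable def Z (w : ℕ) : Submodule ℚ ℝ :=
  Submodule.span ℚ {x : ℝ | ∃ m : ℕ, ∃ n : Fin m → ℕ,
    (∀ i, 1 ≤ n i) ∧ (∀ i : Fin m, (i : ℕ) + 1 = m → 2 ≤ n i) ∧ ∑ i, n i = w ∧ x = mzv m n}

/-- the part of degree `w` of `ℚ[π²] ⊗ (shuffle algebra)` -/
noncomputable def H (w : ℕ) : Submodule ℚ (Bas →₀ ℚ) := Finsupp.supported ℚ ℚ {p | wt p = w}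

/-- the word with the letters of `u` in the places in `S` and the letters of `v` in the others -/
def merge (u v : List ℕ) (S : Finset (Fin (u.length + v.length))) : List ℕ :=
  List.ofFn fun i : Fin (u.length + v.length) =>
    if i ∈ S then u.getD (S.filter fun j => j < i).card 0
    else v.getD (Sᶜ.filter fun j => j < i).card 0

/-- the product: the shuffle product of the words -/
noncomputable def mulH (f g : Bas →₀ ℚ) : Bas →₀ ℚ :=
  f.sum fun p c => g.sum fun q d =>
    (c * d) • ∑ S ∈ powersetCard p.2.length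
        (univ : Finset (Fin (p.2.length + q.2.length))),
      Finsupp.single (p.1 + q.1, merge p.2 q.2 S) (1 : ℚ)

end Pool.Agent.K4H54.MZ
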