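import Pool.Agent.K4H54.MZ.Def

/-! Dimensions of the graded pieces of `ℚ[π²] ⊗ (shuffle algebra)`. -/

set_option autoImplicit false

open Finset

namespace Pool.Agent.K4H54.MZ

/-- basis elements of degree `w` -/
def B (w : ℕ) : Set Bas := {p | wt p = w}

theorem wt_cons' (i a : ℕ) (l : List ℕ) : wt (i, a :: l) = wt (i, l) + 2 * a + 3 := by
  unfold wt
  simp only [List.map_cons, List.sum_cons]
  ring

theorem wt_succ (i : ℕ) (l : List ℕ) : wt (i + 1, l) = wt (i, l) + 2 := by
  simp [wt]
  omega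

theorem wt_zero_nil : wt (0, []) = 0 := by simp [wt]

theorem wt_nil (i : ℕ) : wt (i, []) = 2 * i := by simp [wt]

theorem wt_zero_cons (a : ℕ) (l : List ℕ) : wt (0, a :: l) = wt (a, l) + 3 := by
  rw [wt_cons']
  unfold wt
  simp only
  ring

/-- the recursion of the dimensions, as a decomposition of the sets of basis elements -/
theorem B_rec (w : ℕ) : B (w + 3) =
    (fun p : Bas => ((p.1 + 1, p.2) : Bas)) '' B (w + 1) ∪
      (fun p : Bas => ((0, p.1 :: p.2) : Bas)) '' B w := by
  ext ⟨i, l⟩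
  simp only [B, Set.mem_ofPred_eq, Set.mem_union, Set.mem_image, Prod.exists, Prod.mk.injEq]
  constructor
  · intro h
    rcases i with _ | i
    · right
      rcases l with _ | ⟨a, l⟩
      · rw [wt_zero_nil] at h
        omega
      · rw [wt_zero_cons] at h
        exact ⟨a, l, by omega, rfl, rfl⟩
    · left
      rw [wt_succ] at h
      exact ⟨i, l, by omega, rfl, rfl⟩
  · rintro (⟨j, m, hj, rfl, rfl⟩ | ⟨j, m, hj, rfl, rfl⟩)
    · rw [wt_succ, hj]
    · rw [wt_zero_cons, hj]

theorem B_zero : B 0 = {(0, [])} := by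
  ext ⟨i, l⟩
  simp only [B, Set.mem_ofPred_eq, Set.mem_singleton_iff, Prod.mk.injEq]
  constructor
  · intro h
    rcases l with _ | ⟨a, l⟩
    · rw [wt_nil] at h
      exact ⟨by omega, rfl⟩
    · rw [wt_cons'] at h
      omega
  · rintro ⟨rfl, rfl⟩
    exact wt_zero_nil

theorem B_one : B 1 = ∅ := by
  ext ⟨i, l⟩
  simp only [B, Set.mem_ofPred_eq, Set.mem_empty_iff_false, iff_false]
  intro h
  rcases l with _ | ⟨a, l⟩
  · rw [wt_nil] at h
    omega
  · rw [wt_cons'] at h
    omega

theorem B_two : B 2 = {(1, [])} := by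
  ext ⟨i, l⟩
  simp only [B, Set.mem_ofPred_eq, Set.mem_singleton_iff, Prod.mk.injEq]
  constructor
  · intro h
    rcases l with _ | ⟨a, l⟩
    · rw [wt_nil] at h
      exact ⟨by omega, rfl⟩
    · rw [wt_cons'] at h
      omega
  · rintro ⟨rfl, rfl⟩
    rw [wt_nil]

theorem B_finite (w : ℕ) : (B w).Finite := by
  induction w using Nat.strong_induction_on with
  | _ w ih =>
    rcases w with _ | _ | _ | w
    · rw [B_zero]
      exact Set.finite_singleton _
    · rw [B_one]
      exact Set.finite_empty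
    · rw [B_two]
      exact Set.finite_singleton _
    · rw [B_rec]
      exact ((ih _ (by omega)).image _).union ((ih _ (by omega)).image _)

/-- the dimension of the part of degree `w` -/
noncomputable def D (w : ℕ) : ℕ := (B w).ncard

theorem D_zero : D 0 = 1 := by
  rw [D, B_zero, Set.ncard_singleton]

theorem D_one : D 1 = 0 := by
  rw [D, B_one, Set.ncard_empty]

theorem D_two : D 2 = 1 := by
  rw [D, B_two, Set.ncard_singleton]

theorem D_rec (w : ℕ) : D (w + 3) = D (w + 1) + D w := by
  unfold D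
  rw [B_rec, Set.ncard_union_eq _ ((B_finite _).image _) ((B_finite _).image _),
    Set.ncard_image_of_injective, Set.ncard_image_of_injective]
  · rintro ⟨a, l⟩ ⟨b, m⟩ h
    simpa using h
  · rintro ⟨a, l⟩ ⟨b, m⟩ h
    simpa using h
  · rw [Set.disjoint_left]
    rintro _ ⟨p, _, rfl⟩ ⟨q, _, hq⟩
    simp at hq

theorem D_bound (w : ℕ) : 1 ≤ D (w + 2) ∧ D (w + 3) ≤ 2 * D (w + 2) := by
  induction w using Nat.strong_induction_on with
  | _ w ih =>
    have h0 := D_zero
    have h1 := D_one
    have h2 := D_two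
    have h3 := D_rec 0
    have h4 := D_rec 1
    have h5 := D_rec 2
    simp only [Nat.zero_add] at h3 h4 h5
    have h3' : D 3 = 1 := by rw [h3, h1, h0]
    have h4' : D 4 = 1 := by rw [h4, h2, h1]
    have h5' : D 5 = 2 := by rw [h5, h3', h2]
    rcases w with _ | _ | _ | w
    · simp only [Nat.zero_add]
      omega
    · simp only [Nat.zero_add, Nat.reduceAdd]
      omega
    · simp only [Nat.zero_add, Nat.reduceAdd]
      omega
    · have e1 := D_rec (w + 2)
      have e2 := D_rec (w + 3)
      have i1 := ih w (by omega)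
      have i2 := ih (w + 1) (by omega)
      have i3 := ih (w + 2) (by omega)
      simp only [Nat.add_assoc, Nat.reduceAdd] at e1 e2 i1 i2 i3 ⊢
      omega

theorem D_pos (w : ℕ) (hw : 2 ≤ w) : 0 < D w := by
  obtain ⟨v, rfl⟩ := Nat.exists_eq_add_of_le' hw
  exact (D_bound v).1

theorem D_add_le (w m : ℕ) (hw : 2 ≤ w) : D (w + m) ≤ 2 ^ m * D w := by
  induction m with
  | zero => simp
  | succ m ih =>
    obtain ⟨v, rfl⟩ := Nat.exists_eq_add_of_le' hw
    have h := (D_bound (v + m)).2
    have e1 : v + m + 3 = v + 2 + (m + 1) := by omega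
    have e2 : v + m + 2 = v + 2 + m := by omega
    rw [e1, e2] at h
    calc D (v + 2 + (m + 1)) ≤ 2 * D (v + 2 + m) := h
      _ ≤ 2 * (2 ^ m * D (v + 2)) := Nat.mul_le_mul_left _ ih
      _ = 2 ^ (m + 1) * D (v + 2) := by ring

instance finite_B (w : ℕ) : Finite ({p | wt p = w} : Set Bas) := (B_finite w).to_subtype

instance (w : ℕ) : FiniteDimensional ℚ (H w) := by
  have e := Finsupp.supportedEquivFinsupp (M := ℚ) (R := ℚ) ({p | wt p = w} : Set Bas)
  exact e.symm.finiteDimensional

theorem finrank_H (w : ℕ) : Module.finrank ℚ (H w) = D w := by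
  classical
  have e := Finsupp.supportedEquivFinsupp (M := ℚ) (R := ℚ) ({p | wt p = w} : Set Bas)
  have := Fintype.ofFinite ({p | wt p = w} : Set Bas)
  unfold H
  rw [e.finrank_eq, Module.finrank_finsupp_self, D, B, Set.ncard_eq_toFinset_card', Set.toFinset_card]

end Pool.Agent.K4H54.MZ
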