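import Pool.Agent.K4H54.MZ.Dom
import Pool.Agent.K4H54.MZ.Cnt

/-! The dimension formula for multiple zeta values holds in all weights if it holds asymptotically. -/

set_option autoImplicit false

open Finset Module

namespace Pool.Agent.K4H54.MZ

theorem sum_rank {N : ℕ} (T : Finset (Fin N)) (F : ℕ → ℕ) :
    ∑ s ∈ T, F (T.filter fun j => j < s).card = ∑ i ∈ range T.card, F i := by
  classical
  have hmono : ∀ s ∈ T, ∀ t ∈ T, s < t →
      (T.filter fun j => j < s).card < (T.filter fun j => j < t).card := by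
    intro s hs t ht hst
    apply card_lt_card
    rw [Finset.ssubset_iff_of_subset]
    · exact ⟨s, by simp [hs, hst], by simp⟩
    · intro j hj
      simp only [mem_filter] at hj ⊢
      exact ⟨hj.1, hj.2.trans hst⟩
  have hinj : Set.InjOn (fun s => (T.filter fun j => j < s).card) (T : Set (Fin N)) := by
    intro s hs t ht hst
    rcases lt_trichotomy s t with h | h | h
    · exact absurd hst (hmono s hs t ht h).ne
    · exact h
    · exact absurd hst (hmono t ht s hs h).ne'
  have heq : T.image (fun s => (T.filter fun j => j < s).card) = range T.card := by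
    ext i
    rw [mem_image, mem_range]
    constructor
    · rintro ⟨s, hs, rfl⟩
      apply card_lt_card
      rw [Finset.ssubset_iff_of_subset (filter_subset _ _)]
      exact ⟨s, hs, by simp⟩
    · intro hi
      exact exists_rank T hi
  rw [← heq, sum_image hinj]

theorem sum_map (u : List ℕ) (f : ℕ → ℕ) :
    (u.map f).sum = ∑ i ∈ range u.length, f (u.getD i 0) := by
  rw [← List.ofFn_getElem_eq_map, List.sum_ofFn, Finset.sum_range]
  refine sum_congr rfl fun i _ => ?_
  rw [List.getD_eq_getElem _ _ i.2]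

theorem sum_merge (u v : List ℕ) (f : ℕ → ℕ) (S : Finset (Fin (u.length + v.length)))
    (hS : S.card = u.length) :
    ((merge u v S).map f).sum = (u.map f).sum + (v.map f).sum := by
  classical
  have hSc : Sᶜ.card = v.length := by
    rw [card_compl, Fintype.card_fin, hS]
    omega
  unfold merge
  rw [List.map_ofFn, List.sum_ofFn, ← sum_add_sum_compl S]
  congr 1
  · have h := sum_rank S fun i => f (u.getD i 0)
    rw [hS] at h
    rw [sum_map, ← h]
    refine sum_congr rfl fun i hi => ?_
    simp [hi]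
  · have h := sum_rank Sᶜ fun i => f (v.getD i 0)
    rw [hSc] at h
    rw [sum_map, ← h]
    refine sum_congr rfl fun i hi => ?_
    have : i ∉ S := by simpa using hi
    simp [this]

/-- the merged word has the sum of the weights -/
theorem wt_merge (p q : Bas) (S : Finset (Fin (p.2.length + q.2.length)))
    (hS : S.card = p.2.length) : wt (p.1 + q.1, merge p.2 q.2 S) = wt p + wt q := by
  unfold wt
  simp only
  rw [sum_merge _ _ _ _ hS]
  ring

theorem mem_H {w : ℕ} {x : Bas →₀ ℚ} : x ∈ H w ↔ ∀ p ∈ x.support, wt p = w := by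
  unfold H
  rw [Finsupp.mem_supported]
  rfl

/-- the product is graded -/
theorem mulH_mem {a b : ℕ} {x y : Bas →₀ ℚ} (hx : x ∈ H a) (hy : y ∈ H b) :
    mulH x y ∈ H (a + b) := by
  unfold mulH
  refine Submodule.sum_mem _ fun p hp => Submodule.sum_mem _ fun q hq =>
    Submodule.smul_mem _ _ (Submodule.sum_mem _ fun S hS => ?_)
  unfold H
  apply Finsupp.single_mem_supported
  show wt _ = a + b
  rw [wt_merge _ _ _ (mem_powersetCard.1 hS).2, mem_H.1 hx p hp, mem_H.1 hy q hq]

/-- multiplication by `x` as a linear map -/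
noncomputable def mulL (x : Bas →₀ ℚ) : (Bas →₀ ℚ) →ₗ[ℚ] (Bas →₀ ℚ) where
  toFun y := mulH x y
  map_add' y z := by
    unfold mulH
    rw [← Finsupp.sum_add]
    refine Finsupp.sum_congr fun p _ => ?_
    rw [Finsupp.sum_add_index']
    · intro q
      simp
    · intro q c d
      rw [← add_smul]
      ring_nf
  map_smul' t y := by
    unfold mulH
    rw [RingHom.id_apply, Finsupp.smul_sum]
    refine Finsupp.sum_congr fun p _ => ?_
    rw [Finsupp.smul_sum, Finsupp.sum_smul_index']
    · refine Finsupp.sum_congr fun q _ => ?_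
      rw [smul_smul, smul_eq_mul]
      ring_nf
    · intro q
      simp

theorem mulL_injective {x : Bas →₀ ℚ} (hx : x ≠ 0) : Function.Injective (mulL x) := by
  rw [injective_iff_map_eq_zero]
  intro y hy
  by_contra h
  exact mulH_ne_zero hx h hy

/-- A period map: a homomorphism of algebras `ℚ[π²] ⊗ (shuffle algebra) → ℝ` which maps the part of
degree `w` onto the space of the multiple zeta values of weight `w`, for all `w`. -/
def IsPeriodMap (per : (Bas →₀ ℚ) →ₗ[ℚ] ℝ) : Prop :=
  per (Finsupp.single (0, []) 1) = 1 ∧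
    (∀ x y, per (mulH x y) = per x * per y) ∧ ∀ w, (H w).map per = Z w

/-- the value of a family of isomorphisms -/
noncomputable def val (φ : ∀ w : ℕ, Z w ≃ₗ[ℚ] H w) (w : ℕ) (x : Z w) : Bas →₀ ℚ := (φ w x : Bas →₀ ℚ)

/-- Q1: the algebras are isomorphic as graded algebras (the conclusion of the frozen statement) -/
def Q1 : Prop :=
  ∃ φ : ∀ w : ℕ, Z w ≃ₗ[ℚ] H w,
    (∀ z : Z 0, (z : ℝ) = 1 → val φ 0 z = Finsupp.single (0, []) 1) ∧
    (∀ a b (x : Z a) (y : Z b) (z : Z (a + b)), (z : ℝ) = (x : ℝ) * (y : ℝ) →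
      val φ (a + b) z = mulH (val φ a x) (val φ b y))

section

variable {per : (Bas →₀ ℚ) →ₗ[ℚ] ℝ} (hper : IsPeriodMap per)
include hper

/-- the period map in weight `w` -/
noncomputable def perW (w : ℕ) : H w →ₗ[ℚ] Z w :=
  (per.domRestrict (H w)).codRestrict (Z w) fun x => by
    rw [← hper.2.2 w]
    exact Submodule.mem_map_of_mem x.2

theorem perW_apply (w : ℕ) (x : H w) : (perW hper w x : ℝ) = per x := rfl

theorem perW_surjective (w : ℕ) : Function.Surjective (perW hper w) := by
  rintro ⟨z, hz⟩
  rw [← hper.2.2 w] at hz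
  obtain ⟨x, hx, rfl⟩ := hz
  exact ⟨⟨x, hx⟩, rfl⟩

theorem finite_Z (w : ℕ) : FiniteDimensional ℚ (Z w) :=
  Module.Finite.of_surjective (perW hper w) (perW_surjective hper w)

theorem finrank_Z_add (w : ℕ) :
    finrank ℚ (Z w) + finrank ℚ (LinearMap.ker (perW hper w)) = D w := by
  rw [← finrank_H, ← LinearMap.finrank_range_add_finrank_ker (perW hper w),
    LinearMap.range_eq_top.2 (perW_surjective hper w), finrank_top]

/-- **One relation in weight `m` has many consequences in all larger weights.** -/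
theorem loss {m : ℕ} {x : Bas →₀ ℚ} (hx : x ∈ H m) (hx0 : x ≠ 0) (hp : per x = 0) (k : ℕ) :
    finrank ℚ (Z (m + k)) + D k ≤ D (m + k) := by
  have h1 := finrank_Z_add hper (m + k)
  have h2 : D k ≤ finrank ℚ (LinearMap.ker (perW hper (m + k))) := by
    rw [← finrank_H k]
    let f : H k →ₗ[ℚ] LinearMap.ker (perW hper (m + k)) :=
      { toFun := fun y => ⟨⟨mulL x y, mulH_mem hx y.2⟩, by
          rw [LinearMap.mem_ker]
          apply Subtype.ext
          rw [perW_apply]
          show per (mulH x y) = 0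
          rw [hper.2.1, hp, zero_mul]⟩
        map_add' := fun y z => by
          apply Subtype.ext
          apply Subtype.ext
          exact map_add (mulL x) (y : Bas →₀ ℚ) z
        map_smul' := fun c y => by
          apply Subtype.ext
          apply Subtype.ext
          exact map_smul (mulL x) c (y : Bas →₀ ℚ) }
    apply LinearMap.finrank_le_finrank_of_injective (f := f)
    intro y z hyz
    apply Subtype.ext
    apply mulL_injective hx0
    exact congrArg (fun t => ((t : H (m + k)) : Bas →₀ ℚ)) (congrArg Subtype.val hyz)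
  omega

/-- injectivity in all weights gives Q1 -/
theorem Q1_of_injective (h : ∀ w, ∀ x ∈ H w, per x = 0 → x = 0) : Q1 := by
  have hinj : ∀ w, Function.Injective (perW hper w) := by
    intro w
    rw [injective_iff_map_eq_zero]
    intro x hx
    apply Subtype.ext
    apply h w x x.2
    have := congrArg Subtype.val hx
    rwa [perW_apply] at this
  let e : ∀ w, H w ≃ₗ[ℚ] Z w := fun w =>
    LinearEquiv.ofBijective (perW hper w) ⟨hinj w, perW_surjective hper w⟩
  have hcan : ∀ w (x : H w) (z : Z w), per x = z → ((e w).symm z : Bas →₀ ℚ) = x := by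
    intro w x z hxz
    congr 1
    rw [LinearEquiv.symm_apply_eq]
    exact Subtype.ext hxz.symm
  have hback : ∀ w (z : Z w), per ((e w).symm z : Bas →₀ ℚ) = z := by
    intro w z
    have := (e w).apply_symm_apply z
    exact congrArg Subtype.val this
  refine ⟨fun w => (e w).symm, fun z hz => ?_, fun a b x y z hz => ?_⟩
  · apply hcan 0 ⟨Finsupp.single (0, []) 1, _⟩ z
    · rw [hz]
      exact hper.1
    · unfold H
      exact Finsupp.single_mem_supported _ _ wt_zero_nil
  · apply hcan (a + b) ⟨mulH ((e a).symm x : Bas →₀ ℚ) ((e b).symm y : Bas →₀ ℚ),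
      mulH_mem ((e a).symm x).2 ((e b).symm y).2⟩ z
    show per (mulH _ _) = _
    rw [hper.2.1, hback, hback, hz]

/-- **The asymptotic form of the dimension formula implies Q1.** -/
theorem Q1_iff : Q1 ↔ ∀ ε : ℝ, 0 < ε → ∀ k₀ : ℕ, ∃ k ≥ k₀,
    (1 - ε) * (D k : ℝ) ≤ (finrank ℚ (Z k) : ℝ) := by
  constructor
  · rintro ⟨φ, _⟩ ε hε k₀
    refine ⟨k₀, le_rfl, ?_⟩
    rw [(φ k₀).finrank_eq, finrank_H]
    have : (0 : ℝ) ≤ D k₀ := Nat.cast_nonneg _
    nlinarith
  · intro h
    apply Q1_of_injective hper
    intro m x hx hp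
    by_contra hx0
    obtain ⟨k, hk, hk2⟩ := h (1 / 2 ^ (m + 1)) (by positivity) (m + 2)
    obtain ⟨j, rfl⟩ := Nat.exists_eq_add_of_le (show m ≤ k by omega)
    have h1 := loss hper hx hx0 hp j
    have h2 := D_add_le j m (by omega)
    have h3 := D_pos j (by omega)
    rw [add_comm j m] at h2
    have h1' : (finrank ℚ (Z (m + j)) : ℝ) + D j ≤ D (m + j) := by exact_mod_cast h1
    have h2' : (D (m + j) : ℝ) ≤ 2 ^ m * D j := by exact_mod_cast h2
    have h3' : (0 : ℝ) < D j := by exact_mod_cast h3
    have h4 : (1 : ℝ) / 2 ^ (m + 1) * D (m + j) ≤ 1 / 2 ^ (m + 1) * (2 ^ m * D j) :=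
      mul_le_mul_of_nonneg_left h2' (by positivity)
    have h5 : (1 : ℝ) / 2 ^ (m + 1) * (2 ^ m * D j) = D j / 2 := by
      rw [pow_succ]
      field_simp
    rw [h5] at h4
    nlinarith

end

end Pool.Agent.K4H54.MZ
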