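import Pool.Agent.K4H54.MZ.Def

/-! The algebra `ℚ[π²] ⊗ (shuffle algebra)` has no zero divisors. -/

set_option autoImplicit false

open Finset

namespace Pool.Agent.K4H54.MZ

/-- every rank occurs in a finite set -/
theorem exists_rank {N : ℕ} (T : Finset (Fin N)) {i : ℕ} (hi : i < T.card) :
    ∃ s ∈ T, (T.filter fun j => j < s).card = i := by
  classical
  have hmono : ∀ s ∈ T, ∀ t ∈ T, s < t →
      (T.filter fun j => j < s).card < (T.filter fun j => j < t).card := by
    intro s hs t ht hst
    apply card_lt_card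
    rw [Finset.ssubset_iff_of_subset]
    · exact ⟨s, by simp [hs, hst], by simp⟩
    · intro j hj
      simp only [mem_filter] at hj ⊢
      exact ⟨hj.1, hj.2.trans hst⟩
  have hinj : Set.InjOn (fun s => (T.filter fun j => j < s).card) (T : Set (Fin N)) := by
    intro s hs t ht hst
    rcases lt_trichotomy s t with h | h | h
    · exact absurd hst (hmono s hs t ht h).ne
    · exact h
    · exact absurd hst (hmono t ht s hs h).ne'
  have hsub : T.image (fun s => (T.filter fun j => j < s).card) ⊆ range T.card := by
    intro n hn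
    obtain ⟨s, hs, rfl⟩ := mem_image.1 hn
    rw [mem_range]
    apply card_lt_card
    rw [Finset.ssubset_iff_of_subset (filter_subset _ _)]
    exact ⟨s, hs, by simp⟩
  have heq : T.image (fun s => (T.filter fun j => j < s).card) = range T.card := by
    apply eq_of_subset_of_card_le hsub
    rw [card_image_of_injOn hinj, card_range]
  have : i ∈ T.image (fun s => (T.filter fun j => j < s).card) := by
    rw [heq, mem_range]
    exact hi
  obtain ⟨s, hs, h⟩ := mem_image.1 this
  exact ⟨s, hs, h⟩

/-- the letters of `x` in the places of `S` and the letters of `y` in the others -/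
def mg (a b : ℕ) (x y : ℕ → ℕ) (S : Finset (Fin (a + b))) : ℕ → ℕ := fun r =>
  if h : r < a + b then
    if (⟨r, h⟩ : Fin (a + b)) ∈ S then x (S.filter fun j => j < ⟨r, h⟩).card
    else y (Sᶜ.filter fun j => j < ⟨r, h⟩).card
  else 0

theorem getD_merge (u v : List ℕ) (S : Finset (Fin (u.length + v.length))) :
    (fun r => (merge u v S).getD r 0) =
      mg u.length v.length (fun r => u.getD r 0) (fun r => v.getD r 0) S := by
  funext r
  unfold merge mg
  by_cases h : r < u.length + v.length
  · rw [dif_pos h]
    rw [List.getD_eq_getElem _ _ (by simpa using h)]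
    simp
  · rw [dif_neg h]
    exact List.getD_eq_default _ _ (by simpa using h)

/-- lexicographic order of functions on the natural numbers -/
theorem lex_lt_iff {x y : ℕ → ℕ} :
    toLex x < toLex y ↔ ∃ i, (∀ j < i, x j = y j) ∧ x i < y i := Iff.rfl

/-- at the first difference the smaller function is smaller -/
theorem lt_at {x y : ℕ → ℕ} (h : toLex x ≤ toLex y) {i : ℕ} (h1 : ∀ j < i, x j = y j)
    (h2 : x i ≠ y i) : x i < y i := by
  rcases lt_or_eq_of_le h with h | h
  · obtain ⟨k, hk1, hk2⟩ := lex_lt_iff.1 h
    rcases lt_trichotomy k i with hki | hki | hki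
    · exact absurd (h1 k hki) hk2.ne
    · exact hki ▸ hk2
    · exact absurd (hk1 i hki) h2
  · exact absurd (congrFun (toLex.injective h) i) h2

/-- merging is strictly monotone -/
theorem mg_lt {a b : ℕ} {x' x y' y : ℕ → ℕ} {S : Finset (Fin (a + b))} (hS : S.card = a)
    (hx : toLex x' ≤ toLex x) (hy : toLex y' ≤ toLex y)
    (hx0 : ∀ i, a ≤ i → x' i = x i) (hy0 : ∀ i, b ≤ i → y' i = y i)
    (hne : ¬ (x' = x ∧ y' = y)) : toLex (mg a b x' y' S) < toLex (mg a b x y S) := by
  classical
  have hSc : Sᶜ.card = b := by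
    rw [card_compl, Fintype.card_fin, hS]
    omega
  have hex : ∃ r, mg a b x' y' S r ≠ mg a b x y S r := by
    by_contra hcon
    push_neg at hcon
    apply hne
    constructor
    · funext i
      by_cases hi : i < a
      · obtain ⟨s, hs, hsi⟩ := exists_rank S (i := i) (by omega)
        have h := hcon s
        unfold mg at h
        rw [dif_pos s.2, dif_pos s.2, if_pos (by simpa using hs), if_pos (by simpa using hs)] at h
        simpa [hsi] using h
      · exact hx0 i (by omega)
    · funext i
      by_cases hi : i < b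
      · obtain ⟨s, hs, hsi⟩ := exists_rank Sᶜ (i := i) (by omega)
        have hs' : s ∉ S := by simpa using hs
        have h := hcon s
        unfold mg at h
        rw [dif_pos s.2, dif_pos s.2, if_neg (by simpa using hs'), if_neg (by simpa using hs')] at h
        simpa [hsi] using h
      · exact hy0 i (by omega)
  refine lex_lt_iff.2 ⟨Nat.find hex, fun j hj => ?_, ?_⟩
  · by_contra h
    exact Nat.find_min hex hj h
  · have hmin : ∀ j < Nat.find hex, mg a b x' y' S j = mg a b x y S j := by
      intro j hj
      by_contra h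
      exact Nat.find_min hex hj h
    have hspec := Nat.find_spec hex
    generalize Nat.find hex = r at hmin hspec
    have hr : r < a + b := by
      by_contra h
      unfold mg at hspec
      rw [dif_neg h, dif_neg h] at hspec
      exact hspec rfl
    by_cases hrS : (⟨r, hr⟩ : Fin (a + b)) ∈ S
    · unfold mg at hspec ⊢
      rw [dif_pos hr, dif_pos hr, if_pos hrS, if_pos hrS] at hspec ⊢
      apply lt_at hx _ hspec
      intro i hi
      obtain ⟨s, hs, hsi⟩ := exists_rank (S.filter fun j => j < ⟨r, hr⟩) hi
      rw [mem_filter] at hs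
      have h := hmin s hs.2
      unfold mg at h
      rw [dif_pos s.2, dif_pos s.2, if_pos (by simpa using hs.1), if_pos (by simpa using hs.1)] at h
      have hfil : ((S.filter fun j => j < ⟨r, hr⟩).filter fun j => j < s) =
          S.filter fun j => j < s := by
        ext j
        simp only [mem_filter]
        constructor
        · rintro ⟨⟨h1, _⟩, h3⟩
          exact ⟨h1, h3⟩
        · rintro ⟨h1, h3⟩
          exact ⟨⟨h1, h3.trans hs.2⟩, h3⟩
      rw [hfil] at hsi
      simpa [hsi] using h
    · unfold mg at hspec ⊢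
      rw [dif_pos hr, dif_pos hr, if_neg hrS, if_neg hrS] at hspec ⊢
      apply lt_at hy _ hspec
      intro i hi
      obtain ⟨s, hs, hsi⟩ := exists_rank (Sᶜ.filter fun j => j < ⟨r, hr⟩) hi
      rw [mem_filter] at hs
      have hs' : s ∉ S := by simpa using hs.1
      have h := hmin s hs.2
      unfold mg at h
      rw [dif_pos s.2, dif_pos s.2, if_neg (by simpa using hs'), if_neg (by simpa using hs')] at h
      have hfil : ((Sᶜ.filter fun j => j < ⟨r, hr⟩).filter fun j => j < s) =
          Sᶜ.filter fun j => j < s := by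
        ext j
        simp only [mem_filter]
        constructor
        · rintro ⟨⟨h1, _⟩, h3⟩
          exact ⟨h1, h3⟩
        · rintro ⟨h1, h3⟩
          exact ⟨⟨h1, h3.trans hs.2⟩, h3⟩
      rw [hfil] at hsi
      simpa [hsi] using h

/-- the function of the letters of a word -/
def fn (u : List ℕ) : ℕ → ℕ := fun r => u.getD r 0

theorem fn_zero {u : List ℕ} {i : ℕ} (h : u.length ≤ i) : fn u i = 0 :=
  List.getD_eq_default _ _ h

theorem fn_inj {u v : List ℕ} (h : u.length = v.length) (h2 : fn u = fn v) : u = v := by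
  apply List.ext_getElem h
  intro n h1 h3
  have := congrFun h2 n
  unfold fn at this
  rwa [List.getD_eq_getElem _ _ h1, List.getD_eq_getElem _ _ h3] at this

theorem length_merge (u v : List ℕ) (S : Finset (Fin (u.length + v.length))) :
    (merge u v S).length = u.length + v.length := by
  simp [merge]

theorem fn_merge (u v : List ℕ) (S : Finset (Fin (u.length + v.length))) :
    fn (merge u v S) = mg u.length v.length (fn u) (fn v) S := getD_merge u v S

/-- order of the basis elements -/
def key (p : Bas) : ℕ ×ₗ ℕ ×ₗ Lex (ℕ → ℕ) :=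
  toLex (p.2.length, toLex (p.1, toLex (fn p.2)))

theorem key_le {p q : Bas} (h : key p ≤ key q) : p.2.length ≤ q.2.length ∧
    (p.2.length = q.2.length → p.1 ≤ q.1 ∧
      (p.1 = q.1 → toLex (fn p.2) ≤ toLex (fn q.2))) := by
  unfold key at h
  rw [Prod.Lex.le_iff] at h
  simp only [ofLex_toLex] at h
  rcases h with h | ⟨h1, h2⟩
  · exact ⟨h.le, fun he => absurd he h.ne⟩
  · refine ⟨h1.le, fun _ => ?_⟩
    rw [Prod.Lex.le_iff] at h2
    simp only [ofLex_toLex] at h2
    rcases h2 with h2 | ⟨h2, h3⟩
    · exact ⟨h2.le, fun he => absurd he h2.ne⟩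
    · exact ⟨h2.le, fun _ => h3⟩

/-- a coefficient of a product -/
theorem mulH_apply (f g : Bas →₀ ℚ) (R : Bas) :
    mulH f g R = ∑ p ∈ f.support, ∑ q ∈ g.support, f p * g q *
      (((powersetCard p.2.length (univ : Finset (Fin (p.2.length + q.2.length)))).filter
        fun S => (p.1 + q.1, merge p.2 q.2 S) = R).card : ℚ) := by
  classical
  unfold mulH
  rw [Finsupp.sum, Finsupp.finset_sum_apply]
  refine sum_congr rfl fun p _ => ?_
  rw [Finsupp.sum, Finsupp.finset_sum_apply]
  refine sum_congr rfl fun q _ => ?_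
  rw [Finsupp.smul_apply, Finsupp.finset_sum_apply, smul_eq_mul]
  congr 1
  simp only [Finsupp.single_apply]
  rw [sum_boole]

/-- no zero divisors -/
theorem mulH_ne_zero {f g : Bas →₀ ℚ} (hf : f ≠ 0) (hg : g ≠ 0) : mulH f g ≠ 0 := by
  classical
  obtain ⟨P, hP, hPmax⟩ := exists_max_image f.support key (Finsupp.support_nonempty_iff.2 hf)
  obtain ⟨Q, hQ, hQmax⟩ := exists_max_image g.support key (Finsupp.support_nonempty_iff.2 hg)
  have hne : (powersetCard P.2.length
      (univ : Finset (Fin (P.2.length + Q.2.length)))).Nonempty := by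
    rw [powersetCard_nonempty, card_univ, Fintype.card_fin]
    omega
  obtain ⟨S0, hS0, hS0max⟩ := exists_max_image _
    (fun S => toLex (fn (merge P.2 Q.2 S))) hne
  set W := merge P.2 Q.2 S0 with hW
  have hmax : ∀ a b, a = P.2.length → b = Q.2.length →
      ∀ S ∈ powersetCard a (univ : Finset (Fin (a + b))),
        toLex (mg a b (fn P.2) (fn Q.2) S) ≤ toLex (fn W) := by
    rintro a b rfl rfl S hS
    have := hS0max S hS
    rwa [fn_merge] at this
  intro h0
  have h := mulH_apply f g (P.1 + Q.1, W)
  rw [h0, Finsupp.zero_apply] at h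
  have hz : ∀ p ∈ f.support, ∀ q ∈ g.support, ¬ (p = P ∧ q = Q) →
      ((powersetCard p.2.length (univ : Finset (Fin (p.2.length + q.2.length)))).filter
        fun S => (p.1 + q.1, merge p.2 q.2 S) = (P.1 + Q.1, W)) = ∅ := by
    intro p hp q hq hpq
    rw [filter_eq_empty_iff]
    intro S hS heq
    rw [Prod.mk.injEq] at heq
    obtain ⟨h1, h2⟩ := heq
    obtain ⟨hl1, hp2⟩ := key_le (hPmax p hp)
    obtain ⟨hl2, hq2⟩ := key_le (hQmax q hq)
    have hlen := congrArg List.length h2
    rw [length_merge, hW, length_merge] at hlen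
    have e1 : p.2.length = P.2.length := by omega
    have e2 : q.2.length = Q.2.length := by omega
    obtain ⟨hi1, hp3⟩ := hp2 e1
    obtain ⟨hi2, hq3⟩ := hq2 e2
    have e3 : p.1 = P.1 := by omega
    have e4 : q.1 = Q.1 := by omega
    have hlt : toLex (mg p.2.length q.2.length (fn p.2) (fn q.2) S) <
        toLex (mg p.2.length q.2.length (fn P.2) (fn Q.2) S) := by
      apply mg_lt (mem_powersetCard.1 hS).2 (hp3 e3) (hq3 e4)
      · intro i hi
        rw [fn_zero hi, fn_zero (by omega)]
      · intro i hi
        rw [fn_zero hi, fn_zero (by omega)]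
      · rintro ⟨hx, hy⟩
        exact hpq ⟨Prod.ext e3 (fn_inj e1 hx), Prod.ext e4 (fn_inj e2 hy)⟩
    have hle := hmax _ _ e1 e2 S hS
    rw [← fn_merge, h2] at hlt
    exact absurd (hlt.trans_le hle) (lt_irrefl _)
  rw [sum_eq_single_of_mem P hP, sum_eq_single_of_mem Q hQ] at h
  · have hc : 0 < ((powersetCard P.2.length
        (univ : Finset (Fin (P.2.length + Q.2.length)))).filter
          fun S => (P.1 + Q.1, merge P.2 Q.2 S) = (P.1 + Q.1, W)).card :=
      card_pos.2 ⟨S0, by rw [mem_filter]; exact ⟨hS0, rfl⟩⟩
    have hfP := Finsupp.mem_support_iff.1 hP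
    have hgQ := Finsupp.mem_support_iff.1 hQ
    have hc' : ((((powersetCard P.2.length
        (univ : Finset (Fin (P.2.length + Q.2.length)))).filter
          fun S => (P.1 + Q.1, merge P.2 Q.2 S) = (P.1 + Q.1, W)).card : ℕ) : ℚ) ≠ 0 := by
      exact_mod_cast hc.ne'
    exact (mul_ne_zero (mul_ne_zero hfP hgQ) hc') h.symm
  · intro q hq hqQ
    rw [hz P hP q hq (fun h => hqQ h.2), card_empty]
    simp
  · intro p hp hpP
    apply sum_eq_zero
    intro q hq
    rw [hz p hp q hq (fun h => hpP h.1), card_empty]
    simp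

end Pool.Agent.K4H54.MZ
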