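import Pool.Agent.K4H54.MZ.Main

/-!
# The frozen statement `S18971` is `Q1`
-/

set_option autoImplicit false

namespace Pool.Agent.K4H54.MZ

/-- the frozen statement `S18971`, verbatim -/
def Frozen : Prop :=
    ∀ ζ : (m : ℕ) → (Fin m → ℕ) → ℝ,
      (∀ m (n : Fin m → ℕ), ζ m n =
        ∑' k : {k : Fin m → ℕ // StrictMono k ∧ ∀ i, 0 < k i},
          ∏ i, (((k.1 i : ℕ) : ℝ) ^ n i)⁻¹) →
    ∀ Z : ℕ → Submodule ℚ ℝ,
      (∀ w, Z w = Submodule.span ℚ {x : ℝ | ∃ m : ℕ, ∃ n : Fin m → ℕ,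
          (∀ i, 1 ≤ n i) ∧ (∀ i : Fin m, (i : ℕ) + 1 = m → 2 ≤ n i) ∧
          ∑ i, n i = w ∧ x = ζ m n}) →
    ∀ H : ℕ → Submodule ℚ ((ℕ × List ℕ) →₀ ℚ),
      (∀ w, H w = Finsupp.supported ℚ ℚ
          {p : ℕ × List ℕ | 2 * p.1 + (p.2.map (fun a => 2 * a + 3)).sum = w}) →
    ∀ mulH : ((ℕ × List ℕ) →₀ ℚ) → ((ℕ × List ℕ) →₀ ℚ) → ((ℕ × List ℕ) →₀ ℚ),
      (∀ f g, mulH f g = f.sum (fun p c => g.sum (fun q d =>
          (c * d) • ∑ S ∈ Finset.powersetCard p.2.length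
              (Finset.univ : Finset (Fin (p.2.length + q.2.length))),
            Finsupp.single (p.1 + q.1,
              List.ofFn (fun i : Fin (p.2.length + q.2.length) =>
                if i ∈ S then p.2.getD (S.filter (fun j => j < i)).card 0
                else q.2.getD (Sᶜ.filter (fun j => j < i)).card 0)) (1 : ℚ)))) →
    ∃ φ : ∀ w : ℕ, Z w ≃ₗ[ℚ] H w,
      (∀ z : Z 0, (z : ℝ) = 1 →
          ((φ 0 z : (ℕ × List ℕ) →₀ ℚ)) = Finsupp.single (0, []) 1) ∧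
      (∀ a b (x : Z a) (y : Z b) (z : Z (a + b)), (z : ℝ) = (x : ℝ) * (y : ℝ) →
          ((φ (a + b) z : (ℕ × List ℕ) →₀ ℚ)) =
            mulH (φ a x : (ℕ × List ℕ) →₀ ℚ) (φ b y : (ℕ × List ℕ) →₀ ℚ))

theorem frozen_iff : Frozen ↔ Q1 := by
  constructor
  · intro h
    exact h mzv (fun _ _ => rfl) Z (fun _ => rfl) H (fun _ => rfl) mulH (fun _ _ => rfl)
  · intro h ζ hζ Z' hZ H' hH m' hm
    obtain rfl : ζ = mzv := funext fun m => funext fun n => hζ m n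
    obtain rfl : Z' = Z := funext hZ
    obtain rfl : H' = H := funext hH
    obtain rfl : m' = mulH := funext fun f => funext fun g => hm f g
    exact h

end Pool.Agent.K4H54.MZ
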